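import Pool.Agent.Results.MP_c0051b_pr.TranspositionLpCutoff

/-!
Return probabilities of the random transposition walk a bit before time `n log n / 2`.
-/

set_option autoImplicit false
set_option linter.all false

open Finset Equiv Filter Topology
open scoped InnerProductSpace Nat

namespace Pool.Agent.Y995.RT

open Pool.Agent.Results.MP_c0051b_pr.TranspositionLpCutoff.RT

noncomputable section

variable {n : ℕ}

theorem log_le_quad {y : ℝ} (hy : 0 < y) (hy1 : y ≤ 1) :
    Real.log y ≤ (y - 1) - (1 - y) ^ 2 / 2 := by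
  have h1 : |1 - y| < 1 := by rw [abs_lt]; constructor <;> linarith
  have h2 := Real.hasSum_pow_div_log_of_abs_lt_one h1
  have h3 := sum_le_hasSum (Finset.range 2) (fun i _ => by
    have : 0 ≤ 1 - y := by linarith
    positivity) h2
  rw [Finset.sum_range_succ, Finset.sum_range_one] at h3
  have e : (1 : ℝ) - (1 - y) = y := by ring
  rw [e] at h3
  norm_num at h3
  linarith

theorem scalar_bound2 (hn : 0 < n) {η : ℝ} (hη0 : 0 ≤ η) (hη1 : η ≤ 1 / 4) {θ : ℝ} (hθ0 : 0 < θ) (hθ1 : θ ≤ 1) {t : ℕ}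
    (ht : (1 - 2 * η) * ((n : ℝ) * Real.log n) ≤ 2 * t) {c : Fin n → ℝ}
    (hP : ∀ k, 0 < c k → ∃ i < k, c i = c k - 1) {R : ℝ} (hR0 : 0 ≤ R) (hR1 : R ≤ 1)
    (hR : R * (n : ℝ) ^ 2 ≤ n + 2 * ∑ k, c k) :
    R ^ t ≤ Real.exp (4 * η ^ 2 * (n * Real.log n)) *
      ((Real.exp ((Real.sqrt (2 * θ + 2 / n) - 2) * (n * Real.log n)) * ((θ ^ 2)⁻¹) ^ n) *
      ∏ k, ((n : ℝ) + c k ^ 2)) := by
  classical
  have hn' : (0 : ℝ) < n := by exact_mod_cast hn
  have hlog : 0 ≤ Real.log n := Real.log_nonneg (by exact_mod_cast hn)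
  set κ : ℝ := 2 * θ + 2 / n with hκ
  have hκ0 : 0 ≤ κ := by positivity
  set s : ℝ := θ * n with hs
  have hs0 : 0 ≤ s := by positivity
  have h1 := sum_content_le hP hs0
  set B : Finset (Fin n) := univ.filter fun k => s < c k with hB
  set b : ℕ := B.card with hb
  have hbn : b ≤ n := by
    rw [hb]; exact card_finset_fin_le B
  have hbn' : (b : ℝ) ≤ n := by exact_mod_cast hbn
  have hb0 : (0 : ℝ) ≤ b := Nat.cast_nonneg b
  set y : ℝ := b / n + Real.sqrt κ with hy
  have hy0 : 0 ≤ y := by positivity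
  have hRy : R ≤ y ^ 2 := by
    have h2 : R * (n : ℝ) ^ 2 ≤ ((b / n) ^ 2 + κ) * (n : ℝ) ^ 2 := by
      have e : ((b / n) ^ 2 + κ) * (n : ℝ) ^ 2 = b ^ 2 + 2 * θ * n ^ 2 + 2 * n := by
        rw [hκ]; field_simp; ring
      rw [e]
      have h3 : 2 * (s * n) = 2 * θ * n ^ 2 := by rw [hs]; ring
      rw [h3] at h1
      nlinarith
    have h3 : R ≤ (b / n) ^ 2 + κ := le_of_mul_le_mul_right h2 (by positivity)
    have h4 : Real.sqrt κ ^ 2 = κ := Real.sq_sqrt hκ0
    have h5 : 0 ≤ (b : ℝ) / n := by positivity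
    have h6 : 0 ≤ Real.sqrt κ := Real.sqrt_nonneg _
    nlinarith
  have hlow : Real.exp (b * Real.log n) * (θ ^ 2) ^ b * Real.exp (n * Real.log n) ≤
      ∏ k, ((n : ℝ) + c k ^ 2) := by
    have h2 : ∏ k, ((n : ℝ) + c k ^ 2) =
        (∏ k ∈ B, ((n : ℝ) + c k ^ 2)) * ∏ k ∈ Bᶜ, ((n : ℝ) + c k ^ 2) :=
      (Finset.prod_mul_prod_compl B _).symm
    have h3 : (θ ^ 2 * n ^ 2) ^ b ≤ ∏ k ∈ B, ((n : ℝ) + c k ^ 2) := by
      rw [hb, ← Finset.prod_const]
      refine Finset.prod_le_prod (fun k _ => by positivity) fun k hk => ?_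
      have hk' : s < c k := (Finset.mem_filter.mp hk).2
      have : s ^ 2 ≤ c k ^ 2 := pow_le_pow_left₀ hs0 hk'.le 2
      rw [hs, mul_pow] at this
      linarith
    have h4 : (n : ℝ) ^ (n - b) ≤ ∏ k ∈ Bᶜ, ((n : ℝ) + c k ^ 2) := by
      have h5 : Bᶜ.card = n - b := by rw [Finset.card_compl, Fintype.card_fin]
      rw [← h5, ← Finset.prod_const]
      refine Finset.prod_le_prod (fun k _ => by positivity) fun k _ => ?_
      have : 0 ≤ c k ^ 2 := sq_nonneg _
      linarith
    rw [h2]
    refine le_trans (le_of_eq ?_) (mul_le_mul h3 h4 (by positivity) (by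
      refine Finset.prod_nonneg fun k _ => ?_
      positivity))
    rw [mul_pow, ← natPow_eq_exp hn, ← natPow_eq_exp hn]
    have h6 : (n : ℝ) ^ n = n ^ (n - b) * n ^ b := by
      rw [← pow_add, Nat.sub_add_cancel hbn]
    rw [h6]
    ring
  have hθb : 1 ≤ ((θ ^ 2)⁻¹) ^ n * (θ ^ 2) ^ b := by
    have h2 : ((θ ^ 2)⁻¹) ^ n = ((θ ^ 2)⁻¹) ^ (n - b) * ((θ ^ 2)⁻¹) ^ b := by
      rw [← pow_add, Nat.sub_add_cancel hbn]
    have h3 : ((θ ^ 2)⁻¹) ^ b * (θ ^ 2) ^ b = 1 := by
      rw [← mul_pow, inv_mul_cancel₀ (by positivity), one_pow]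
    rw [h2, mul_assoc, h3, mul_one]
    apply one_le_pow₀
    rw [one_le_inv₀ (by positivity)]
    exact pow_le_one₀ hθ0.le hθ1
  have hE1 : 1 ≤ Real.exp (4 * η ^ 2 * (n * Real.log n)) := Real.one_le_exp (by positivity)
  have hmain : R ^ t ≤ Real.exp (4 * η ^ 2 * (n * Real.log n)) *
      Real.exp ((y - 1) * (n * Real.log n)) := by
    rw [← Real.exp_add]
    rcases le_or_gt y 1 with h | h
    · rcases hy0.eq_or_lt with hy00 | hy00
      · -- `y = 0`
        have hR00 : R = 0 := le_antisymm (by rw [← hy00] at hRy; simpa using hRy) hR0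
        rcases Nat.eq_zero_or_pos t with ht0 | ht0
        · rw [ht0] at ht
          push_cast at ht
          have h3 : (n : ℝ) * Real.log n = 0 := by
            have h4 : 0 ≤ (n : ℝ) * Real.log n := by positivity
            have h5 : (1 / 2 : ℝ) ≤ 1 - 2 * η := by linarith
            nlinarith
          rw [ht0, pow_zero, h3]
          simp
        · rw [hR00, zero_pow (by omega)]
          exact (Real.exp_pos _).le
      · have hlogy : Real.log y ≤ (y - 1) - (1 - y) ^ 2 / 2 := by
          have h2 := log_le_quad hy00 h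
          exact h2
        have hneg : (y - 1) - (1 - y) ^ 2 / 2 ≤ 0 := by
          have : 0 ≤ (1 - y) ^ 2 / 2 := by positivity
          linarith
        calc R ^ t ≤ (y ^ 2) ^ t := pow_le_pow_left₀ hR0 hRy t
          _ = y ^ (2 * t) := by rw [pow_mul]
          _ = Real.exp ((2 * t : ℕ) * Real.log y) := by
              rw [Real.exp_nat_mul, Real.exp_log hy00]
          _ ≤ Real.exp (4 * η ^ 2 * (n * Real.log n) + (y - 1) * (n * Real.log n)) := by
              apply Real.exp_le_exp.mpr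
              push_cast
              have hT : 0 ≤ (n : ℝ) * Real.log n := by positivity
              have h3 : 2 * (t : ℝ) * Real.log y ≤ 2 * t * ((y - 1) - (1 - y) ^ 2 / 2) :=
                mul_le_mul_of_nonneg_left hlogy (by positivity)
              have h4 : 2 * (t : ℝ) * ((y - 1) - (1 - y) ^ 2 / 2) ≤
                  ((1 - 2 * η) * ((n : ℝ) * Real.log n)) * ((y - 1) - (1 - y) ^ 2 / 2) :=
                mul_le_mul_of_nonpos_right ht hneg
              have h5 : (1 - 2 * η) * ((y - 1) - (1 - y) ^ 2 / 2) ≤ 4 * η ^ 2 + (y - 1) := by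
                nlinarith [sq_nonneg ((1 - y) - 4 * η), sq_nonneg (1 - y), sq_nonneg η]
              calc 2 * (t : ℝ) * Real.log y ≤ _ := h3.trans h4
                _ = ((1 - 2 * η) * ((y - 1) - (1 - y) ^ 2 / 2)) * ((n : ℝ) * Real.log n) := by ring
                _ ≤ (4 * η ^ 2 + (y - 1)) * ((n : ℝ) * Real.log n) :=
                    mul_le_mul_of_nonneg_right h5 hT
                _ = _ := by ring
    · calc R ^ t ≤ 1 := pow_le_one₀ hR0 hR1
        _ ≤ _ := by
            apply Real.one_le_exp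
            have : 0 ≤ y - 1 := by linarith
            positivity
  refine hmain.trans (mul_le_mul_of_nonneg_left ?_ (Real.exp_pos _).le)
  calc Real.exp ((y - 1) * (n * Real.log n))
      ≤ Real.exp ((y - 1) * (n * Real.log n)) * (((θ ^ 2)⁻¹) ^ n * (θ ^ 2) ^ b) :=
        le_mul_of_one_le_right (Real.exp_pos _).le hθb
    _ = (Real.exp ((Real.sqrt κ - 2) * (n * Real.log n)) * ((θ ^ 2)⁻¹) ^ n) *
        (Real.exp (b * Real.log n) * (θ ^ 2) ^ b * Real.exp (n * Real.log n)) := by
        have h2 : Real.exp ((y - 1) * (n * Real.log n)) =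
            Real.exp ((Real.sqrt κ - 2) * (n * Real.log n)) * Real.exp (b * Real.log n) *
              Real.exp (n * Real.log n) := by
          rw [← Real.exp_add, ← Real.exp_add]
          congr 1
          rw [hy]
          field_simp
          ring
        rw [h2]; ring
    _ ≤ _ := mul_le_mul_of_nonneg_left hlow (by positivity)

theorem law_one_le2 (hn : 0 < n) {η : ℝ} (hη0 : 0 ≤ η) (hη1 : η ≤ 1 / 4) {θ : ℝ} (hθ0 : 0 < θ) (hθ1 : θ ≤ 1) {t : ℕ} (hte : Even t)
    (ht : (1 - 2 * η) * ((n : ℝ) * Real.log n) ≤ 2 * t) :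
    (n.factorial : ℝ) * law n t 1 ≤ Real.exp (4 * η ^ 2 * (n * Real.log n)) *
      (Real.exp (Real.sqrt (2 * θ + 2 / n) * (n * Real.log n)) * (2 / θ ^ 2) ^ n) := by
  have hn' : (0 : ℝ) < n := by exact_mod_cast hn
  set EE : ℝ := Real.exp (4 * η ^ 2 * (n * Real.log n)) with hEE
  have hEE0 : 0 < EE := Real.exp_pos _
  set C : ℝ := EE * (Real.exp ((Real.sqrt (2 * θ + 2 / n) - 2) * (n * Real.log n)) *
    ((θ ^ 2)⁻¹) ^ n) with hC
  have hρ := unit_reg n
  have h1 : law n t 1 ≤ C * ∏ i ∈ range n, ((n : ℝ) + i) := by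
    have h2 := hρ.pow_le_PP t C (by
      intro v hv c hc r hr
      have hP : ∀ k, 0 < c k → ∃ i < k, c i = c k - 1 := fun k =>
        hρ.content_pred k v hv c fun i _ => hc i
      have hN : ∀ k, 0 < (fun i => -c i) k → ∃ i < k, (fun i => -c i) i = (fun i => -c i) k - 1 :=
        fun k => hρ.sgr.content_pred k v hv (fun i => -c i) fun i _ => by
          rw [JM_sgr, hc, neg_smul]
      have hr1 := hρ.abs_eig_le hn hv hr
      have hrn : r * (n : ℝ) ^ 2 = n + 2 * ∑ k, c k := by
        have h3 := KK_JM (ρ := reg n) hn v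
        simp_rw [hc] at h3
        rw [hr, ← Finset.sum_smul, smul_smul, smul_smul, ← add_smul] at h3
        have h4 := sub_eq_zero.mpr h3
        rw [← sub_smul] at h4
        rcases smul_eq_zero.mp h4 with h5 | h5
        · linarith
        · exact absurd h5 hv
      rcases le_or_gt 0 r with h0 | h0
      · refine (scalar_bound2 hn hη0 hη1 hθ0 hθ1 ht hP h0 (le_of_abs_le hr1) hrn.le).trans
          (le_of_eq ?_)
        rw [hC, hEE]
        ring
      · have h3 := scalar_bound2 hn hη0 hη1 hθ0 hθ1 ht hN (R := -r) (by linarith)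
          (by rw [abs_of_neg h0] at hr1; exact hr1) (by
            have e : ∑ k, (fun i => -c i) k = -∑ k, c k := by
              rw [← Finset.sum_neg_distrib]
            rw [e]
            nlinarith)
        rw [hte.neg_pow] at h3
        simp only [neg_sq] at h3
        rw [hC, mul_assoc]
        exact h3) hn (dl 1)
    rw [inner_dl', inner_dl', PP_dl_one n le_rfl, ← law_eq] at h2
    exact h2
  have h2 : ∏ i ∈ range n, ((n : ℝ) + i) ≤ (2 * (n : ℝ)) ^ n := by
    calc ∏ i ∈ range n, ((n : ℝ) + i) ≤ ∏ i ∈ range n, (2 * (n : ℝ)) := by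
          refine Finset.prod_le_prod (fun i _ => by positivity) fun i hi => ?_
          have : (i : ℝ) ≤ n := by exact_mod_cast (Finset.mem_range.mp hi).le
          linarith
      _ = _ := by rw [Finset.prod_const, Finset.card_range]
  have h3 : (n.factorial : ℝ) ≤ (n : ℝ) ^ n := by
    exact_mod_cast Nat.factorial_le_pow n
  have hC0 : 0 ≤ C := by rw [hC]; positivity
  calc (n.factorial : ℝ) * law n t 1 ≤ (n : ℝ) ^ n * (C * (2 * (n : ℝ)) ^ n) := by
        have h4 : law n t 1 ≤ C * (2 * (n : ℝ)) ^ n :=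
          h1.trans (mul_le_mul_of_nonneg_left h2 hC0)
        calc (n.factorial : ℝ) * law n t 1 ≤ n.factorial * (C * (2 * (n : ℝ)) ^ n) :=
              mul_le_mul_of_nonneg_left h4 (by positivity)
          _ ≤ _ := mul_le_mul_of_nonneg_right h3 (by positivity)
    _ = _ := by
        rw [hC, mul_pow, natPow_eq_exp hn, div_pow, inv_pow]
        have h5 : Real.exp (Real.sqrt (2 * θ + 2 / n) * (n * Real.log n)) =
            Real.exp (n * Real.log n) *
            (Real.exp ((Real.sqrt (2 * θ + 2 / n) - 2) * (n * Real.log n)) *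
              Real.exp (n * Real.log n)) := by
          rw [← Real.exp_add, ← Real.exp_add]
          congr 1
          ring
        rw [h5]
        ring

end

end Pool.Agent.Y995.RT
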