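import Pool.Agent.Y995.RT.Even
import Pool.Agent.Y995.RT.Scal

/-!
The moment bound at times `(1/2) n (log n + c)`.
-/

set_option autoImplicit false
set_option linter.all false

open Finset Equiv Filter Topology
open scoped InnerProductSpace Nat

namespace Pool.Agent.Y995.RT

open Pool.Agent.Results.MP_c0051b_pr.TranspositionLpCutoff.RT

noncomputable section

/-- the second probability: `n ^ (-1 + 1/(2 q))` -/
def w2 (q n : ℕ) : ℝ := Real.exp (Real.log n / (2 * q))

theorem exp_neg_two_le {x : ℝ} (h0 : 0 ≤ x) (h1 : x ≤ 1 / 2) : Real.exp (-(2 * x)) ≤ 1 - x := by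
  rw [Real.exp_neg]
  have h2 : 1 + 2 * x ≤ Real.exp (2 * x) := by
    have := Real.add_one_le_exp (2 * x)
    linarith
  have h3 : 0 < 1 + 2 * x := by linarith
  calc (Real.exp (2 * x))⁻¹ ≤ (1 + 2 * x)⁻¹ := inv_anti₀ h3 h2
    _ ≤ 1 - x := by
        rw [inv_le_iff_one_le_mul₀ h3]
        nlinarith

/-- the bound for one large `n` -/
theorem asy2 {c : ℝ} (hc : 2 ≤ c) {q : ℕ} (hq : Even q) (hq2 : 2 ≤ q) {n : ℕ} (hn9 : 9 ≤ n)
    (hnq : 16 * (q : ℝ) ≤ n) (hclog : c ≤ Real.log n)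
    (hw : w2 q n / n ≤ 1 / 2)
    {η : ℝ} (hη0 : 0 ≤ η) (hη1 : η ≤ 1 / 4) (hηn : 8 ≤ η * (n * Real.log n))
    {t t0 : ℕ} (hte : Even t) (ht0e : Even t0)
    (ht : n * (Real.log n + c) ≤ 2 * t)
    (ht0 : (t0 : ℝ) ≤ (1 - 2 * η) * (n * Real.log n) / 2 + 2) :
    (n ! : ℝ)⁻¹ * ∑ σ : Perm (Fin n), ((n ! : ℝ) * law n t σ - 1) ^ q ≤
      3 ^ q * (2 ^ q * ((2 * Real.exp (-c)) ^ q +
        (Real.exp ((1 + 2 * Real.exp (-c)) ^ q - 1) - 1)) +
        (2 * (2 * Real.exp (-c) / n)) ^ q * Real.exp ((1 + 2 * Real.exp (-c)) ^ q - 1) +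
        3 ^ q * ((2 * Real.exp (2 * w2 q n - n / (16 * q))) ^ q *
            Real.exp ((1 + w2 q n) ^ q - 1) +
          (Real.exp (-(1 / (8 * q)) ^ 2 * (η * (n * Real.log n) - 2)) *
          ((n ! : ℝ) * law n t0 1)) ^ q)) := by
  have hqR : (2 : ℝ) ≤ q := by exact_mod_cast hq2
  have hq0 : (0 : ℝ) < q := by linarith
  obtain ⟨δ, hδ⟩ : ∃ δ : ℝ, δ = 1 / (4 * q) := ⟨_, rfl⟩
  have hδ0 : 0 < δ := by rw [hδ]; positivity
  have hδ1 : δ ≤ 1 / 8 := by
    rw [hδ, div_le_div_iff₀ (by positivity) (by norm_num)]; linarith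
  have hn9' : (9 : ℝ) ≤ n := by exact_mod_cast hn9
  have hn0 : 0 < n := by omega
  have hn' : (0 : ℝ) < n := by linarith
  have hlog2 : 2 ≤ Real.log n := hc.trans hclog
  have hlog0 : 0 < Real.log n := by linarith
  have hc0 : 0 < c := by linarith
  have hnδ' : 2 ≤ δ * n := by
    rw [hδ, div_mul_eq_mul_div, le_div_iff₀ (by positivity)]; linarith
  -- the first probability
  obtain ⟨x, hx⟩ : ∃ x : ℝ, x = 2 * Real.exp (-c) := ⟨_, rfl⟩
  have hx0 : 0 < x := by rw [hx]; positivity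
  have hx1 : x ≤ 1 / 2 := by
    have h1 : Real.exp (-c) ≤ Real.exp (-2) := Real.exp_le_exp.mpr (by linarith)
    have h2 : Real.exp (-2) ≤ 1 / 4 := by
      rw [Real.exp_neg]
      have h3 := Real.exp_one_gt_d9
      have h4 : Real.exp 2 = Real.exp 1 * Real.exp 1 := by rw [← Real.exp_add]; norm_num
      have h5 : 4 ≤ Real.exp 2 := by rw [h4]; nlinarith
      rw [inv_le_comm₀ (Real.exp_pos _) (by norm_num)]
      norm_num
      exact h5
    rw [hx]; linarith
  obtain ⟨p, hp⟩ : ∃ p : ℝ, p = x / n := ⟨_, rfl⟩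
  have hp0 : 0 ≤ p := by rw [hp]; positivity
  have hnp : (n : ℝ) * p = x := by rw [hp]; field_simp
  have hp1 : p ≤ 1 := by
    rw [hp, div_le_one hn']; linarith
  have hplog : Real.exp (-(Real.log n + c) + Real.log 2) = p := by
    rw [Real.exp_add, Real.exp_log (by norm_num), neg_add, Real.exp_add, Real.exp_neg,
      Real.exp_log hn', hp, hx]
    field_simp
  -- the second probability
  obtain ⟨w, hw'⟩ : ∃ w : ℝ, w = w2 q n := ⟨_, rfl⟩
  have hw0 : 0 < w := by rw [hw']; exact Real.exp_pos _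
  rw [← hw'] at hw ⊢
  have hp20 : 0 ≤ w / n := by positivity
  have hp21 : w / n ≤ 1 := by linarith
  have hnp2 : (n : ℝ) * (w / n) = w := by field_simp
  obtain ⟨g, hg⟩ : ∃ g : ℝ, g = Real.exp (2 * w - n / (16 * q)) := ⟨_, rfl⟩
  have hg0 : 0 ≤ g := by rw [hg]; exact (Real.exp_pos _).le
  have hqpow : Real.exp (-(2 * w)) ≤ (1 - w / n) ^ n := by
    have h1 := exp_neg_two_le hp20 hw
    calc Real.exp (-(2 * w)) = Real.exp (-(2 * (w / n))) ^ n := by
          rw [← Real.exp_nat_mul]; congr 1; field_simp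
      _ ≤ (1 - w / n) ^ n := pow_le_pow_left₀ (Real.exp_pos _).le h1 n
  have hwlog : ∀ l : ℕ, (w / n) ^ l = Real.exp (-((l : ℝ) * ((1 - 2 * δ) * Real.log n))) := by
    intro l
    have h1 : w / n = Real.exp (-((1 - 2 * δ) * Real.log n)) := by
      rw [hw', w2, div_eq_mul_inv]
      conv_lhs => rw [← Real.exp_log hn']
      rw [← Real.exp_neg, ← Real.exp_add, Real.exp_log hn', hδ]
      congr 1
      field_simp
      ring
    rw [h1, ← Real.exp_nat_mul]
    congr 1
    ring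
  -- levels
  set L : ℕ := ⌊δ * n⌋₊ with hL
  have hL1 : (L : ℝ) ≤ δ * n := Nat.floor_le (by positivity)
  have hL2 : δ * n / 2 ≤ L := by
    have := Nat.lt_floor_add_one (δ * n)
    rw [← hL] at this
    linarith
  have hLn : (L : ℝ) + 2 ≤ n := by nlinarith
  have hLn' : L + 2 ≤ n := by exact_mod_cast hLn
  have hT0 : 0 ≤ n * Real.log n := by positivity
  have hnc : 0 ≤ n * c := by positivity
  have htT : n * Real.log n ≤ 2 * t := by
    have : n * (Real.log n + c) = n * Real.log n + n * c := by ring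
    linarith
  have htt : t0 ≤ t := by
    have : (t0 : ℝ) ≤ t := by
      have e1 : (1 - 2 * η) * (n * Real.log n) / 2 = n * Real.log n / 2 - η * (n * Real.log n) := by
        ring
      linarith
    exact_mod_cast this
  have hn2 : (0 : ℝ) < (n : ℝ) ^ 2 := by positivity
  have hupper : ∀ l : ℕ, l ≤ L → 2 * (l : ℝ) * (n - l + 1) / (n : ℝ) ^ 2 ≤ 5 / 9 := by
    intro l hl
    have hl' : (l : ℝ) ≤ L := by exact_mod_cast hl
    have hl0 : (0 : ℝ) ≤ l := by positivity
    rw [div_le_iff₀ hn2]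
    nlinarith
  have hupper' : ∀ l : ℕ, l ≤ L → 2 * (l : ℝ) * (n + 1) / (n : ℝ) ^ 2 ≤ 1 := by
    intro l hl
    have hl' : (l : ℝ) ≤ L := by exact_mod_cast hl
    have hl0 : (0 : ℝ) ≤ l := by positivity
    rw [div_le_iff₀ hn2]
    nlinarith
  have hlog2' : (1 / 2 : ℝ) ≤ Real.log 2 := by
    have := Real.log_two_gt_d9
    linarith
  -- exponential form of the powers
  have hexp : ∀ (y b : ℝ), 0 ≤ b → b ≤ 1 - y → b ^ t ≤ Real.exp (-(t * y)) := by
    intro y b hb hb'
    calc b ^ t ≤ Real.exp (-y) ^ t := by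
          refine pow_le_pow_left₀ hb ?_ t
          have := Real.one_sub_le_exp_neg y
          linarith
      _ = Real.exp (-(t * y)) := by rw [← Real.exp_nat_mul]; congr 1; ring
  -- low levels
  have hlow : ∀ l : ℕ, l ≤ L → 4 * ((l : ℝ) * Real.log n) ≤ n →
      Real.exp (-(t * (2 * (l : ℝ) * (n - l + 1) / (n : ℝ) ^ 2))) ≤ p ^ l := by
    intro l hl hll
    have hl0 : (0 : ℝ) ≤ l := by positivity
    rw [← hplog, ← Real.exp_nat_mul, Real.exp_le_exp]
    have h1 : (n : ℝ) * (Real.log n + c) * (l * (n - l + 1)) ≤ 2 * t * (l * (n - l + 1)) := by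
      refine mul_le_mul_of_nonneg_right ht (mul_nonneg hl0 ?_)
      have hl' : (l : ℝ) ≤ L := by exact_mod_cast hl
      linarith
    have h2 : (t : ℝ) * (2 * (l : ℝ) * (n - l + 1) / (n : ℝ) ^ 2) =
        2 * t * (l * (n - l + 1)) / (n : ℝ) ^ 2 := by ring
    have h3 : (l : ℝ) * ((Real.log n + c) - Real.log 2) ≤
        2 * t * (l * (n - l + 1)) / (n : ℝ) ^ 2 := by
      rw [le_div_iff₀ hn2]
      refine le_trans ?_ h1
      have h4 : (l : ℝ) * (Real.log n + c) ≤ n / 2 := by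
        have h5 : (l : ℝ) * c ≤ l * Real.log n := mul_le_mul_of_nonneg_left hclog hl0
        rw [mul_add]
        linarith
      have h5 : (l : ℝ) * (Real.log n + c) ≤ n * Real.log 2 := by
        have := mul_le_mul_of_nonneg_left hlog2' hn'.le
        linarith
      have h6 : 0 ≤ (n : ℝ) * l := by positivity
      have h7 := mul_le_mul_of_nonneg_left h5 h6
      have h8 : 0 ≤ (n : ℝ) * l * (Real.log n + c) := by positivity
      have e1 : (l : ℝ) * (Real.log n + c - Real.log 2) * (n : ℝ) ^ 2 =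
          n * l * (n * (Real.log n + c)) - n * l * (n * Real.log 2) := by ring
      have e2 : (n : ℝ) * (Real.log n + c) * (l * (n - l + 1)) =
          n * l * (n * (Real.log n + c)) - n * l * (l * (Real.log n + c)) +
            n * l * (Real.log n + c) := by ring
      rw [e1, e2]
      linarith
    rw [h2]
    linarith
  -- intermediate levels
  have hmid : ∀ l : ℕ, l ≤ L → (n : ℝ) < 4 * (l * Real.log n) →
      Real.exp (-(t * (2 * (l : ℝ) * (n - l + 1) / (n : ℝ) ^ 2))) ≤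
        g * ((w / n) ^ l * (1 - w / n) ^ n) := by
    intro l hl hll
    have hl0 : (0 : ℝ) ≤ l := by positivity
    have hl' : (l : ℝ) ≤ L := by exact_mod_cast hl
    have h1 : Real.exp (-(t * (2 * (l : ℝ) * (n - l + 1) / (n : ℝ) ^ 2))) ≤
        Real.exp (-(l * ((1 - δ) * Real.log n))) := by
      rw [Real.exp_le_exp, neg_le_neg_iff]
      have h2 : (t : ℝ) * (2 * (l : ℝ) * (n - l + 1) / (n : ℝ) ^ 2) =
        2 * t * (l * (n - l + 1)) / (n : ℝ) ^ 2 := by ring
      rw [h2, le_div_iff₀ hn2]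
      have h3 : (1 - δ) * n ≤ n - l + 1 := by linarith
      calc (l : ℝ) * ((1 - δ) * Real.log n) * (n : ℝ) ^ 2 =
            (n * Real.log n) * (l * ((1 - δ) * n)) := by ring
        _ ≤ (2 * t) * (l * (n - l + 1)) := by
            refine mul_le_mul htT (mul_le_mul_of_nonneg_left h3 hl0) ?_ (by positivity)
            have : 0 ≤ 1 - δ := by linarith
            positivity
    refine h1.trans ?_
    rw [hwlog]
    have h4 : Real.exp (-(l * ((1 - δ) * Real.log n))) ≤
        g * (Real.exp (-((l : ℝ) * ((1 - 2 * δ) * Real.log n))) * Real.exp (-(2 * w))) := by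
      rw [hg, ← Real.exp_add, ← Real.exp_add, Real.exp_le_exp]
      have h5 : (n : ℝ) / (16 * q) = δ * n / 4 := by rw [hδ]; field_simp; ring
      rw [h5]
      have h6 := mul_le_mul_of_nonneg_left hll.le hδ0.le
      have e1 : (l : ℝ) * ((1 - δ) * Real.log n) = l * Real.log n - δ * (l * Real.log n) := by ring
      have e2 : (l : ℝ) * ((1 - 2 * δ) * Real.log n) =
          l * Real.log n - 2 * (δ * (l * Real.log n)) := by ring
      rw [e1, e2]
      linarith
    refine h4.trans ?_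
    gcongr
  refine (even2 hn0 hp0 hp1 hp20 hp21 hg0 ?_ hte ht0e htt hLn' ?_ ?_ ?_ ?_
    (γ := Real.exp (-(1 / (8 * q)) ^ 2 * (η * (n * Real.log n) - 2)))
    (Real.exp_pos _).le ?_ hq (by omega)).trans (le_of_eq ?_)
  · have h4 : 1 - n * p ≤ (1 - p) ^ n := by
      have := one_add_mul_le_pow (a := -p) (by linarith) n
      have e : (1 : ℝ) + -p = 1 - p := by ring
      rw [e] at this
      linarith
    rw [hnp] at h4
    linarith
  · intro l _ hl
    have h0 : 0 ≤ 1 - 2 * (l : ℝ) * (n - l + 1) / (n : ℝ) ^ 2 := by linarith [hupper l hl]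
    have h1 := hexp _ _ h0 le_rfl
    rcases le_or_gt (4 * ((l : ℝ) * Real.log n)) n with h | h
    · left; exact h1.trans (hlow l hl h)
    · right; exact h1.trans (hmid l hl h)
  · intro l hl
    linarith [hupper' l hl]
  · intro l hl
    have h5 : 2 / (n : ℝ) ≤ 2 / 9 := by
      rw [div_le_div_iff₀ hn' (by norm_num)]; linarith
    have h0 : 0 ≤ 1 - 2 / n - 2 * (l : ℝ) * (n - l + 1) / (n : ℝ) ^ 2 := by
      linarith [hupper l hl]
    rcases le_or_gt (4 * ((l : ℝ) * Real.log n)) n with h | h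
    · left
      have h1 := hexp (2 / n + 2 * (l : ℝ) * (n - l + 1) / (n : ℝ) ^ 2) _ h0 (by linarith)
      refine h1.trans ?_
      have h2 : Real.exp (-(t * (2 / n + 2 * (l : ℝ) * (n - l + 1) / (n : ℝ) ^ 2))) =
          Real.exp (-(t * (2 * (l : ℝ) * (n - l + 1) / (n : ℝ) ^ 2))) *
            Real.exp (-(2 * t / n)) := by
        rw [← Real.exp_add]; congr 1; ring
      rw [h2, pow_succ]
      refine mul_le_mul (hlow l hl h) ?_ (Real.exp_pos _).le (pow_nonneg hp0 l)
      rw [← hplog, Real.exp_le_exp]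
      have h3 : Real.log n + c ≤ 2 * t / n := by
        rw [le_div_iff₀ hn']; linarith
      linarith
    · right
      have h1 := hexp (2 * (l : ℝ) * (n - l + 1) / (n : ℝ) ^ 2) _ h0 (by
        have : 0 ≤ 2 / (n : ℝ) := by positivity
        linarith)
      exact h1.trans (hmid l hl h)
  · intro l hl
    have h5 : 2 / (n : ℝ) ≤ 2 / 9 := by
      rw [div_le_div_iff₀ hn' (by norm_num)]; linarith
    linarith [hupper l hl]
  · have hδ8 : δ / 2 = 1 / (8 * q) := by rw [hδ]; field_simp; ring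
    have h1 : (δ / 2) ^ 2 ≤ ((L : ℝ) / n) ^ 2 := by
      have : δ / 2 ≤ (L : ℝ) / n := by
        rw [le_div_iff₀ hn']; linarith
      exact pow_le_pow_left₀ (by positivity) this 2
    have h2 : ((L : ℝ) / n) ^ 2 ≤ 1 := by
      have : (L : ℝ) / n ≤ 1 := by
        rw [div_le_one hn']; linarith
      exact pow_le_one₀ (by positivity) this
    have h3 := Real.one_sub_le_exp_neg (((L : ℝ) / n) ^ 2)
    have h4 : ((t - t0 : ℕ) : ℝ) = (t : ℝ) - t0 := Nat.cast_sub htt
    have h5 : η * (n * Real.log n) - 2 ≤ (t : ℝ) - t0 := by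
      have e1 : (1 - 2 * η) * (n * Real.log n) / 2 = n * Real.log n / 2 - η * (n * Real.log n) := by
        ring
      linarith
    have h6 : 0 ≤ (t : ℝ) - t0 := by
      have : (t0 : ℝ) ≤ t := by exact_mod_cast htt
      linarith
    rw [← hδ8]
    calc (1 - ((L : ℝ) / n) ^ 2) ^ (t - t0)
        ≤ Real.exp (-(((L : ℝ) / n) ^ 2)) ^ (t - t0) :=
          pow_le_pow_left₀ (by linarith) h3 _
      _ = Real.exp (((t - t0 : ℕ) : ℝ) * (-(((L : ℝ) / n) ^ 2))) := (Real.exp_nat_mul _ _).symm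
      _ ≤ _ := by
          rw [Real.exp_le_exp, h4]
          have h7 : (δ / 2) ^ 2 * (η * (n * Real.log n) - 2) ≤
              (δ / 2) ^ 2 * ((t : ℝ) - t0) := mul_le_mul_of_nonneg_left h5 (by positivity)
          have h8 : (δ / 2) ^ 2 * ((t : ℝ) - t0) ≤ ((L : ℝ) / n) ^ 2 * ((t : ℝ) - t0) :=
            mul_le_mul_of_nonneg_right h1 h6
          linarith
  · rw [hnp, hnp2, hg, hp, hx]

end

end Pool.Agent.Y995.RT
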