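import Pool.Agent.Y995.RT.Ineq

/-!
The moment bound at even times.
-/

set_option autoImplicit false
set_option linter.all false

open Finset Equiv Filter Topology
open scoped InnerProductSpace Nat

namespace Pool.Agent.Y995.RT

open Pool.Agent.Results.MP_c0051b_pr.TranspositionLpCutoff.RT

noncomputable section

variable {n : ℕ}

theorem even2 (hn : 0 < n) {p γ p2 g : ℝ} (hp0 : 0 ≤ p) (hp1 : p ≤ 1)
    (hp20 : 0 ≤ p2) (hp21 : p2 ≤ 1) (hg : 0 ≤ g)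
    (hβ : 1 ≤ 2 * (1 - p) ^ n) {t t0 : ℕ} (hte : Even t) (ht0e : Even t0)
    (htt : t0 ≤ t) {L : ℕ} (hL : L + 2 ≤ n)
    (h1 : ∀ l : ℕ, 1 ≤ l → l ≤ L →
      (1 - 2 * (l : ℝ) * (n - l + 1) / (n : ℝ) ^ 2) ^ t ≤ p ^ l ∨
      (1 - 2 * (l : ℝ) * (n - l + 1) / (n : ℝ) ^ 2) ^ t ≤ g * (p2 ^ l * (1 - p2) ^ n))
    (h1' : ∀ l : ℕ, l ≤ L → 0 ≤ 1 - 2 * (l : ℝ) * (n + 1) / (n : ℝ) ^ 2)
    (h2 : ∀ l : ℕ, l ≤ L →
      (1 - 2 / n - 2 * (l : ℝ) * (n - l + 1) / (n : ℝ) ^ 2) ^ t ≤ p ^ (l + 1) ∨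
      (1 - 2 / n - 2 * (l : ℝ) * (n - l + 1) / (n : ℝ) ^ 2) ^ t ≤ g * (p2 ^ l * (1 - p2) ^ n))
    (h2' : ∀ l : ℕ, l ≤ L → 2 / (n : ℝ) ≤ 1 - 2 / n - 2 * (l : ℝ) * (n - l + 1) / (n : ℝ) ^ 2)
    (h3 : 0 ≤ γ) (h3' : (1 - ((L : ℝ) / n) ^ 2) ^ (t - t0) ≤ γ) {q : ℕ} (hq : Even q)
    (hq1 : 1 ≤ q) :
    (n ! : ℝ)⁻¹ * ∑ σ : Perm (Fin n), ((n ! : ℝ) * law n t σ - 1) ^ q ≤
      3 ^ q * (2 ^ q * ((n * p) ^ q + (Real.exp ((1 + n * p) ^ q - 1) - 1)) +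
        (2 * p) ^ q * Real.exp ((1 + n * p) ^ q - 1) +
        3 ^ q * ((2 * g) ^ q * Real.exp ((1 + n * p2) ^ q - 1) +
          (γ * ((n ! : ℝ) * law n t0 1)) ^ q)) := by
  have hu := unit_reg n
  have hK : Sym (KK (reg n)) := fun v w => hu.KK_symm v w
  have he : Sym (eB (reg n) univ) := fun v w => hu.eB_symm univ v w
  have hA : Sym ((KK (reg n)) ^ t - eB (reg n) univ) := (hK.pow t).sub he
  have hB : Sym ((2 : ℝ) • (Gp (reg n) p - eB (reg n) univ) + ((2 : ℝ) * p) • Gp (sgr (reg n)) p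
      + (g • (Gp (reg n) p2 + Gp (sgr (reg n)) p2) + γ • (KK (reg n)) ^ t0)) :=
    ((((hu.Gp_symm p).sub he).smul 2).add ((hu.sgr.Gp_symm p).smul (2 * p))).add
        ((((hu.Gp_symm p2).add (hu.sgr.Gp_symm p2)).smul g).add ((hK.pow t0).smul γ))
  have hA' : RC ((KK (reg n)) ^ t - eB (reg n) univ) := ((rc'_KK.pow t).sub (rc'_eB _)).rc
  have hB' : RC ((2 : ℝ) • (Gp (reg n) p - eB (reg n) univ) +
      ((2 : ℝ) * p) • Gp (sgr (reg n)) p +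
        (g • (Gp (reg n) p2 + Gp (sgr (reg n)) p2) + γ • (KK (reg n)) ^ t0)) :=
    (((((rc'_Gp p).sub (rc'_eB _)).smul 2).add ((rc'_Gp_sgr p).smul (2 * p))).add
      ((((rc'_Gp p2).add (rc'_Gp_sgr p2)).smul g).add ((rc'_KK.pow t0).smul γ))).rc
  have hmaj := majorant hA hB hA' hB' (fun v => A_nonneg hu hn hte v)
    (fun v => main2 hu hn hp0 hp1 hp20 hp21 hg hβ (by norm_num) hte ht0e htt hL h1 h1' h2 h2' h3
      h3' v) q
  have hN : (0 : ℝ) < (n ! : ℝ) := by exact_mod_cast Nat.factorial_pos n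
  -- left side
  have hl : ∀ σ : Perm (Fin n), ((n ! : ℝ) * law n t σ - 1) ^ q =
      (n ! : ℝ) ^ q * ((((KK (reg n)) ^ t - eB (reg n) univ) (dl 1)) σ) ^ q := by
    intro σ
    rw [← mul_pow]
    congr 1
    rw [LinearMap.sub_apply, PiLp.sub_apply, mul_sub, eB_univ_dl, law_eq]
  have hr : ∀ σ : Perm (Fin n), (n ! : ℝ) ^ q * ((((2 : ℝ) • (Gp (reg n) p - eB (reg n) univ) +
      ((2 : ℝ) * p) • Gp (sgr (reg n)) p +
        (g • (Gp (reg n) p2 + Gp (sgr (reg n)) p2) + γ • (KK (reg n)) ^ t0)) (dl 1)) σ) ^ q ≤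
      3 ^ q * (2 ^ q * ((n ! : ℝ) * Gp (reg n) p (dl 1) σ - 1) ^ q +
        (2 * p) ^ q * ((n ! : ℝ) * Gp (reg n) p (dl 1) σ) ^ q +
          3 ^ q * ((2 * g) ^ q * ((n ! : ℝ) * Gp (reg n) p2 (dl 1) σ) ^ q +
            (γ * ((n ! : ℝ) * law n t0 1)) ^ q)) := by
    intro σ
    have e : (n ! : ℝ) * ((((2 : ℝ) • (Gp (reg n) p - eB (reg n) univ) +
      ((2 : ℝ) * p) • Gp (sgr (reg n)) p +
        (g • (Gp (reg n) p2 + Gp (sgr (reg n)) p2) + γ • (KK (reg n)) ^ t0)) (dl 1)) σ) =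
      2 * ((n ! : ℝ) * Gp (reg n) p (dl 1) σ - 1) +
        ((Perm.sign σ : ℤ) : ℝ) * ((2 * p) * ((n ! : ℝ) * Gp (reg n) p (dl 1) σ)) +
          (g * ((1 + ((Perm.sign σ : ℤ) : ℝ)) * ((n ! : ℝ) * Gp (reg n) p2 (dl 1) σ)) +
            γ * ((n ! : ℝ) * law n t0 σ)) := by
      simp only [LinearMap.add_apply, LinearMap.sub_apply, LinearMap.smul_apply, PiLp.add_apply,
        PiLp.sub_apply, PiLp.smul_apply, smul_eq_mul, Gp_sgr_dl]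
      rw [law_eq]
      have h4 := eB_univ_dl σ
      linear_combination (-2) * h4
    rw [← mul_pow, e]
    refine (add_three_pow_le hq _ _ _).trans ?_
    have h4 : (((Perm.sign σ : ℤ) : ℝ) * ((2 * p) * ((n ! : ℝ) * Gp (reg n) p (dl 1) σ))) ^ q =
        (2 * p) ^ q * ((n ! : ℝ) * Gp (reg n) p (dl 1) σ) ^ q := by
      rw [mul_pow, mul_pow (2 * p)]
      obtain ⟨r, hr⟩ := hq
      have h5 : (((Perm.sign σ : ℤ) : ℝ)) ^ q = 1 := by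
        rw [hr, pow_add, ← mul_pow, sign_mul_self', one_pow]
      rw [h5, one_mul]
    have h5 : (g * ((1 + ((Perm.sign σ : ℤ) : ℝ)) * ((n ! : ℝ) * Gp (reg n) p2 (dl 1) σ)) +
            γ * ((n ! : ℝ) * law n t0 σ)) ^ q ≤
        3 ^ q * ((2 * g) ^ q * ((n ! : ℝ) * Gp (reg n) p2 (dl 1) σ) ^ q +
            (γ * ((n ! : ℝ) * law n t0 1)) ^ q) := by
      have h7 := law_nonneg t0 σ
      have h6 := law_le_one ht0e σ
      have hx : 0 ≤ (n ! : ℝ) * Gp (reg n) p2 (dl 1) σ :=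
        (pow_nonneg (by linarith : 0 ≤ 1 - p2) n).trans (le_Gp_dl hp20 hp21 σ)
      have hs : 0 ≤ 1 + ((Perm.sign σ : ℤ) : ℝ) ∧ 1 + ((Perm.sign σ : ℤ) : ℝ) ≤ 2 := by
        rcases Int.units_eq_one_or (Perm.sign σ) with h | h <;> rw [h] <;> norm_num
      have h8 : g * ((1 + ((Perm.sign σ : ℤ) : ℝ)) * ((n ! : ℝ) * Gp (reg n) p2 (dl 1) σ)) ≤
          (2 * g) * ((n ! : ℝ) * Gp (reg n) p2 (dl 1) σ) := by
        have h9 := mul_le_mul_of_nonneg_right hs.2 hx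
        have h10 := mul_le_mul_of_nonneg_left h9 hg
        linarith
      have h11 : 0 ≤ g * ((1 + ((Perm.sign σ : ℤ) : ℝ)) *
          ((n ! : ℝ) * Gp (reg n) p2 (dl 1) σ)) := mul_nonneg hg (mul_nonneg hs.1 hx)
      have h12 : γ * ((n ! : ℝ) * law n t0 σ) ≤ γ * ((n ! : ℝ) * law n t0 1) := by gcongr
      have h13 : 0 ≤ γ * ((n ! : ℝ) * law n t0 σ) := by positivity
      have h14 := add_three_pow_le hq ((2 * g) * ((n ! : ℝ) * Gp (reg n) p2 (dl 1) σ))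
        (γ * ((n ! : ℝ) * law n t0 1)) 0
      rw [add_zero, zero_pow (by omega), add_zero, mul_pow (2 * g)] at h14
      refine le_trans (pow_le_pow_left₀ (by linarith) ?_ q) h14
      linarith
    rw [h4, mul_pow 2]
    gcongr
  have hfin : (n ! : ℝ)⁻¹ * ∑ σ : Perm (Fin n), ((n ! : ℝ) * law n t σ - 1) ^ q ≤
      (n ! : ℝ)⁻¹ * ∑ σ : Perm (Fin n),
      3 ^ q * (2 ^ q * ((n ! : ℝ) * Gp (reg n) p (dl 1) σ - 1) ^ q +
        (2 * p) ^ q * ((n ! : ℝ) * Gp (reg n) p (dl 1) σ) ^ q +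
          3 ^ q * ((2 * g) ^ q * ((n ! : ℝ) * Gp (reg n) p2 (dl 1) σ) ^ q +
            (γ * ((n ! : ℝ) * law n t0 1)) ^ q)) := by
    apply mul_le_mul_of_nonneg_left _ (by positivity)
    simp_rw [hl]
    rw [← Finset.mul_sum]
    refine (mul_le_mul_of_nonneg_left hmaj (by positivity)).trans ?_
    rw [Finset.mul_sum]
    exact Finset.sum_le_sum fun σ _ => hr σ
  refine hfin.trans ?_
  rw [← Finset.mul_sum, Finset.sum_add_distrib, Finset.sum_add_distrib, ← Finset.mul_sum,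
    ← Finset.mul_sum, ← Finset.mul_sum, Finset.sum_add_distrib, ← Finset.mul_sum]
  have e1 := mean_Gp_sub_one (n := n) hp0 hp1 hq1 hq
  have e2 := mean_Gp_pow (n := n) hp0 hp1 q
  have e2' := mean_Gp_pow (n := n) hp20 hp21 q
  have e3 := mean_const (n := n) ((γ * ((n ! : ℝ) * law n t0 1)) ^ q)
  have e4 : ∀ a b d c : ℝ, (n ! : ℝ)⁻¹ * (3 ^ q * (2 ^ q * a + (2 * p) ^ q * b +
      3 ^ q * ((2 * g) ^ q * d + c))) =
      3 ^ q * (2 ^ q * ((n ! : ℝ)⁻¹ * a) + (2 * p) ^ q * ((n ! : ℝ)⁻¹ * b) +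
        3 ^ q * ((2 * g) ^ q * ((n ! : ℝ)⁻¹ * d) + (n ! : ℝ)⁻¹ * c)) := by
    intro a b d c; ring
  rw [e4, e3]
  gcongr

end

end Pool.Agent.Y995.RT
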