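import Pool.Agent.Y995.RT.Asy

/-!
The window of the `ℓ^p` cutoff.
-/

set_option autoImplicit false
set_option linter.all false

open Finset Equiv Filter Topology
open scoped InnerProductSpace Nat

namespace Pool.Agent.Y995.RT

open Pool.Agent.Results.MP_c0051b_pr.TranspositionLpCutoff.RT

noncomputable section

/-- the square root of `n` -/
def sq (n : ℕ) : ℝ := Real.exp (Real.log n / 2)

theorem sq_sq {n : ℕ} (hn : 0 < n) : sq n * sq n = n := by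
  have hn' : (0 : ℝ) < n := by exact_mod_cast hn
  unfold sq
  rw [← Real.exp_add, add_halves, Real.exp_log hn']

theorem sq_tendsto : Tendsto sq atTop atTop :=
  Real.tendsto_exp_atTop.comp (tendsto_log_nat.atTop_div_const (by norm_num))

theorem w2_pow {q n : ℕ} (hq : 2 ≤ q) : w2 q n ^ q = sq n := by
  unfold w2 sq
  rw [← Real.exp_nat_mul]
  congr 1
  have : (q : ℝ) ≠ 0 := by positivity
  field_simp

theorem one_le_w2 {q n : ℕ} (hn : 1 ≤ n) : 1 ≤ w2 q n := by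
  unfold w2
  apply Real.one_le_exp
  have := Real.log_natCast_nonneg n
  positivity

theorem w2_le {q n : ℕ} (hq : 2 ≤ q) (hn : 1 ≤ n) : w2 q n ≤ sq n := by
  rw [← w2_pow hq]
  exact le_self_pow₀ (one_le_w2 hn) (by omega)

theorem y2_tendsto {q : ℕ} (hq : 2 ≤ q) :
    Tendsto (fun n : ℕ => (2 * Real.exp (2 * w2 q n - n / (16 * q))) ^ q *
            Real.exp ((1 + w2 q n) ^ q - 1)) atTop (𝓝 0) := by
  have h1 : Tendsto (fun n : ℕ => 2 ^ q * Real.exp (-((n : ℝ) / 32))) atTop (𝓝 0) := by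
    rw [← mul_zero ((2 : ℝ) ^ q)]
    apply Tendsto.const_mul
    apply Real.tendsto_exp_atBot.comp
    exact tendsto_neg_atTop_atBot.comp (tendsto_natCast'.atTop_div_const (by norm_num))
  refine squeeze_zero' (Eventually.of_forall fun n => by positivity) ?_ h1
  have h2 : ∀ᶠ n : ℕ in atTop, 32 * (2 * (q : ℝ) + 2 ^ q) ≤ sq n :=
    sq_tendsto.eventually_ge_atTop _
  filter_upwards [h2, eventually_ge_atTop 1] with n h3 h4
  have hq0 : (0 : ℝ) < q := by positivity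
  have hs := sq_sq h4
  have hs0 : 0 < sq n := Real.exp_pos _
  have hw1 := one_le_w2 (q := q) h4
  have hw := w2_le hq h4
  have h5 : (1 + w2 q n) ^ q ≤ 2 ^ q * sq n := by
    rw [← w2_pow hq, ← mul_pow]
    exact pow_le_pow_left₀ (by linarith) (by linarith) q
  rw [mul_pow, mul_assoc]
  refine mul_le_mul_of_nonneg_left ?_ (by positivity)
  rw [← Real.exp_nat_mul, ← Real.exp_add, Real.exp_le_exp]
  have h6 : (q : ℝ) * (2 * w2 q n - n / (16 * q)) = 2 * q * w2 q n - n / 16 := by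
    field_simp
  rw [h6]
  have h7 : 2 * (q : ℝ) * w2 q n ≤ 2 * q * sq n := mul_le_mul_of_nonneg_left hw (by positivity)
  have h8 : (2 * (q : ℝ) + 2 ^ q) * sq n ≤ n / 32 := by
    have := mul_le_mul_of_nonneg_right h3 hs0.le
    rw [hs] at this
    linarith
  linarith

/-- the bound at even times -/
theorem even_window {q : ℕ} (hq : Even q) (hq2 : 2 ≤ q) {c : ℝ} (hc : 2 ≤ c) {a : ℝ}
    (ha : 3 ^ q * (2 ^ q * ((2 * Real.exp (-c)) ^ q +
        (Real.exp ((1 + 2 * Real.exp (-c)) ^ q - 1) - 1))) < a) :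
    ∀ᶠ n : ℕ in atTop, ∀ t : ℕ, Even t → n * (Real.log n + c) ≤ 2 * t →
      (n ! : ℝ)⁻¹ * ∑ σ : Perm (Fin n), ((n ! : ℝ) * law n t σ - 1) ^ q ≤ a := by
  have hq0 : (0 : ℝ) < q := by positivity
  obtain ⟨D, hD⟩ : ∃ D : ℝ, D = (1 / (8 * q)) ^ 2 := ⟨_, rfl⟩
  have hD0 : 0 < D := by rw [hD]; positivity
  have hD1 : D ≤ 1 := by
    rw [hD]
    apply pow_le_one₀ (by positivity)
    rw [div_le_one (by positivity)]
    have : (2 : ℝ) ≤ q := by exact_mod_cast hq2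
    linarith
  obtain ⟨η, hη⟩ : ∃ η : ℝ, η = D / 16 := ⟨_, rfl⟩
  have hη0 : 0 < η := by rw [hη]; positivity
  have hη1 : η ≤ 1 / 4 := by rw [hη]; linarith
  obtain ⟨E, hE⟩ : ∃ E : ℝ, E = 3 / 4 * η := ⟨_, rfl⟩
  have hE0 : 0 < E := by rw [hE]; positivity
  obtain ⟨θ, hθ⟩ : ∃ θ : ℝ, θ = min 1 ((D * E) ^ 2 / 16) := ⟨_, rfl⟩
  have hθ0 : 0 < θ := by rw [hθ]; exact lt_min one_pos (by positivity)
  have hθ1 : θ ≤ 1 := by rw [hθ]; exact min_le_left _ _
  have hθ2 : θ ≤ (D * E) ^ 2 / 16 := by rw [hθ]; exact min_le_right _ _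
  have hc3 := gamma_law_tendsto hD0 hE0 hθ0 hθ2
  have hc2 := y2_tendsto hq2
  have hc1 : Tendsto (fun n : ℕ => 2 * (2 * Real.exp (-c) / (n : ℝ))) atTop (𝓝 0) := by
    rw [← mul_zero (2 : ℝ)]
    exact (tendsto_const_div_atTop_nhds_zero_nat _).const_mul 2
  obtain ⟨K0, hK0⟩ : ∃ K0 : ℝ, K0 = 2 ^ q * ((2 * Real.exp (-c)) ^ q +
        (Real.exp ((1 + 2 * Real.exp (-c)) ^ q - 1) - 1)) := ⟨_, rfl⟩
  obtain ⟨K1, hK1⟩ : ∃ K1 : ℝ, K1 = Real.exp ((1 + 2 * Real.exp (-c)) ^ q - 1) := ⟨_, rfl⟩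
  let F : ℝ × ℝ × ℝ → ℝ := fun x => 3 ^ q * (K0 + x.1 ^ q * K1 + 3 ^ q * (x.2.1 + x.2.2 ^ q))
  have hF : Continuous F := by
    show Continuous fun x : ℝ × ℝ × ℝ =>
      3 ^ q * (K0 + x.1 ^ q * K1 + 3 ^ q * (x.2.1 + x.2.2 ^ q))
    fun_prop
  have hF0 : F (0, 0, 0) < a := by
    have hq0 : q ≠ 0 := by omega
    simp only [F, zero_pow hq0, zero_mul, add_zero, mul_zero]
    rw [hK0]; exact ha
  have hlim := (hF.tendsto (0, 0, 0)).comp (hc1.prodMk_nhds (hc2.prodMk_nhds hc3))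
  have hev := hlim.eventually_lt_const hF0
  have e1 : ∀ᶠ n : ℕ in atTop, 16 * (q : ℝ) ≤ (n : ℝ) := tendsto_natCast'.eventually_ge_atTop _
  have e2 : ∀ᶠ n : ℕ in atTop, c ≤ Real.log n := tendsto_log_nat.eventually_ge_atTop _
  have e3 : ∀ᶠ n : ℕ in atTop, (2 : ℝ) ≤ sq n := sq_tendsto.eventually_ge_atTop _
  have e4 : ∀ᶠ n : ℕ in atTop, 8 / η ≤ (n : ℝ) := tendsto_natCast'.eventually_ge_atTop _
  have e5 : ∀ᶠ n : ℕ in atTop, (1 : ℝ) ≤ Real.log n := tendsto_log_nat.eventually_ge_atTop _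
  filter_upwards [hev, e1, e2, e3, e4, e5, eventually_ge_atTop 9] with n h0 h1 h2 h3 h4 h5 h9 t
    hte ht
  have hn0 : 0 < n := by omega
  have hn' : (0 : ℝ) < n := by exact_mod_cast hn0
  have hT : 0 ≤ n * Real.log n := by positivity
  have hηn : 8 ≤ η * (n * Real.log n) := by
    rw [div_le_iff₀ hη0] at h4
    nlinarith
  have hw : w2 q n / n ≤ 1 / 2 := by
    have h6 := w2_le (q := q) hq2 (n := n) (by omega)
    have h7 := sq_sq hn0
    rw [div_le_div_iff₀ hn' (by norm_num)]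
    nlinarith
  obtain ⟨t0, ht0⟩ : ∃ t0 : ℕ, t0 = 2 * ⌈(1 - 2 * η) * ((n : ℝ) * Real.log n) / 4⌉₊ := ⟨_, rfl⟩
  have hpos : 0 ≤ (1 - 2 * η) * ((n : ℝ) * Real.log n) / 4 := by
    have : 0 ≤ 1 - 2 * η := by linarith
    positivity
  have hce := Nat.ceil_lt_add_one hpos
  have hce' := Nat.le_ceil ((1 - 2 * η) * ((n : ℝ) * Real.log n) / 4)
  have ht0e : Even t0 := by rw [ht0]; exact even_two_mul _
  have h8 := asy2 hc hq hq2 h9 h1 h2 hw hη0.le hη1 hηn hte ht0e ht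
    (by rw [ht0]; push_cast; linarith)
  refine h8.trans (le_trans ?_ h0.le)
  show _ ≤ F _
  have h10 := law_one_le2 hn0 hη0.le hη1 hθ0 hθ1 (t := t0) ht0e (by
    rw [ht0]; push_cast; linarith)
  have h11 : 0 ≤ law n t0 1 := law_nonneg _ _
  have h12 : Real.exp (-(1 / (8 * q)) ^ 2 * (η * (n * Real.log n) - 2)) *
      ((n ! : ℝ) * law n t0 1) ≤ Real.exp (-D * (E * (n * Real.log n) - 4)) *
      (Real.exp (Real.sqrt (2 * θ + 2 / n) * (n * Real.log n)) * (2 / θ ^ 2) ^ n) := by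
    refine (mul_le_mul_of_nonneg_left h10 (Real.exp_pos _).le).trans ?_
    rw [← mul_assoc]
    refine mul_le_mul_of_nonneg_right ?_ (by positivity)
    rw [← Real.exp_add, Real.exp_le_exp, ← hD]
    have h13 : 4 * η ^ 2 = D * η / 4 := by rw [hη]; ring
    rw [h13, hE]
    have h14 : 0 ≤ D * η * (n * Real.log n) := by positivity
    nlinarith
  simp only [F, hK0, hK1]
  have h15 : 0 ≤ Real.exp (-(1 / (8 * q)) ^ 2 * (η * (n * Real.log n) - 2)) *
      ((n ! : ℝ) * law n t0 1) := by positivity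
  have h16 := pow_le_pow_left₀ h15 h12 q
  have h17 : (0 : ℝ) < 3 ^ q := by positivity
  refine mul_le_mul_of_nonneg_left ?_ h17.le
  refine add_le_add le_rfl ?_
  exact mul_le_mul_of_nonneg_left (add_le_add le_rfl h16) h17.le

/-- the upper half of the window -/
theorem upper_window {q : ℕ} (hq : Even q) (hq2 : 2 ≤ q) {a : ℝ} (ha : 0 < a) :
    ∃ c : ℝ, 0 ≤ c ∧ ∀ᶠ n : ℕ in atTop, ∀ t : ℕ, n * (Real.log n + c) ≤ 2 * t →
      (n ! : ℝ)⁻¹ * ∑ σ : Perm (Fin n), ((n ! : ℝ) * law n t σ - 1) ^ q ≤ a := by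
  have hlim : Tendsto (fun c : ℝ => 3 ^ q * (2 ^ q * ((2 * Real.exp (-c)) ^ q +
        (Real.exp ((1 + 2 * Real.exp (-c)) ^ q - 1) - 1)))) atTop (𝓝 0) := by
    have h1 : Tendsto (fun c : ℝ => Real.exp (-c)) atTop (𝓝 0) :=
      Real.tendsto_exp_neg_atTop_nhds_zero
    have hG : Continuous (fun x : ℝ => 3 ^ q * (2 ^ q * ((2 * x) ^ q +
        (Real.exp ((1 + 2 * x) ^ q - 1) - 1)))) := by fun_prop
    have h2 := (hG.tendsto 0).comp h1
    have hq0 : q ≠ 0 := by omega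
    simp only [mul_zero, zero_pow hq0, add_zero, one_pow, sub_self, Real.exp_zero] at h2
    exact h2
  obtain ⟨c, hc1, hc2⟩ := ((hlim.eventually_lt_const ha).and (eventually_ge_atTop 2)).exists
  refine ⟨c + 1, by linarith, ?_⟩
  filter_upwards [even_window hq hq2 hc2 hc1, eventually_ge_atTop 2] with n h1 h2 t ht
  have hn' : (2 : ℝ) ≤ n := by exact_mod_cast h2
  have e : (n : ℝ) * (Real.log n + (c + 1)) = n * (Real.log n + c) + n := by ring
  rw [e] at ht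
  rcases Nat.even_or_odd t with he | ho
  · exact h1 t he (by linarith)
  · obtain ⟨s, rfl⟩ := ho
    have h3 := h1 (2 * s) (even_two_mul s) (by push_cast at ht ⊢; linarith)
    refine le_trans ?_ h3
    exact mul_le_mul_of_nonneg_left (contract (by omega) _ hq) (by positivity)

/-- second moment lower bound -/
theorem mom_two_ge2 {n : ℕ} (hn : 0 < n) (t : ℕ) {M : ℝ} (hM : 0 ≤ M)
    (h : 3 * M + 3 ≤ ((n : ℝ) - 1) * (1 - 2 / (n : ℝ)) ^ t) :
    M ^ 2 ≤ mom 2 n t := by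
  have hN : (0 : ℝ) < (n ! : ℝ) := by exact_mod_cast Nat.factorial_pos n
  have h0 := mom_nat (q := 2) even_two n t
  rw [Nat.cast_ofNat] at h0
  rw [h0]
  have h1 : (n ! : ℝ)⁻¹ * ∑ σ : Perm (Fin n), ((n ! : ℝ) * law n t σ - 1) * ff σ =
      (n - 1) * (1 - 2 / (n : ℝ)) ^ t - (n ! : ℝ)⁻¹ * ∑ σ : Perm (Fin n), ff σ := by
    rw [← law_ff hn t]
    have h2 : ∀ σ : Perm (Fin n), ((n ! : ℝ) * law n t σ - 1) * ff σ =
        (n ! : ℝ) * (law n t σ * ff σ) - ff σ := fun σ => by ring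
    simp_rw [h2]
    rw [Finset.sum_sub_distrib, ← Finset.mul_sum, mul_sub, ← mul_assoc,
      inv_mul_cancel₀ hN.ne', one_mul]
  have h2 : 3 * M ≤ (n ! : ℝ)⁻¹ * ∑ σ : Perm (Fin n), ((n ! : ℝ) * law n t σ - 1) * ff σ := by
    rw [h1]; linarith [mean_ff (n := n)]
  have h3 := Finset.sum_mul_sq_le_sq_mul_sq (univ : Finset (Perm (Fin n)))
    (fun σ => (n ! : ℝ) * law n t σ - 1) ff
  have h4 : ((n ! : ℝ)⁻¹ * ∑ σ : Perm (Fin n), ((n ! : ℝ) * law n t σ - 1) * ff σ) ^ 2 ≤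
      ((n ! : ℝ)⁻¹ * ∑ σ : Perm (Fin n), ((n ! : ℝ) * law n t σ - 1) ^ 2) *
        ((n ! : ℝ)⁻¹ * ∑ σ : Perm (Fin n), ff σ ^ 2) := by
    have h5 := mul_le_mul_of_nonneg_left h3 (by positivity : 0 ≤ ((n ! : ℝ)⁻¹) ^ 2)
    calc _ = ((n ! : ℝ)⁻¹) ^ 2 * (∑ σ : Perm (Fin n), ((n ! : ℝ) * law n t σ - 1) * ff σ) ^ 2 := by
          ring
      _ ≤ _ := h5
      _ = _ := by ring
  have h5 : 0 ≤ (n ! : ℝ)⁻¹ * ∑ σ : Perm (Fin n), ((n ! : ℝ) * law n t σ - 1) ^ 2 :=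
    mul_nonneg (by positivity) (Finset.sum_nonneg fun σ _ => sq_nonneg _)
  have h6 := mul_le_mul_of_nonneg_left (mean_ff_sq (n := n)) h5
  have h7 := pow_le_pow_left₀ (by positivity : 0 ≤ 3 * M) h2 2
  nlinarith

/-- the lower half of the window -/
theorem lower_window (M : ℝ) :
    ∃ c : ℝ, 0 ≤ c ∧ ∀ᶠ n : ℕ in atTop, ∀ t : ℕ, 2 * (t : ℝ) ≤ n * (Real.log n - c) →
      (|M| + 1) ^ 2 ≤ mom 2 n t := by
  obtain ⟨c, hc⟩ : ∃ c : ℝ, c = 1 + Real.log (2 * (3 * (|M| + 1) + 3)) := ⟨_, rfl⟩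
  have hM0 : 0 ≤ |M| := abs_nonneg M
  have hA : 1 ≤ 2 * (3 * (|M| + 1) + 3) := by linarith
  have hc0 : 0 ≤ c := by
    rw [hc]
    have := Real.log_nonneg hA
    linarith
  refine ⟨c, hc0, ?_⟩
  have hlog : ∀ᶠ n : ℕ in atTop, (4 : ℝ) ≤ sq n := sq_tendsto.eventually_ge_atTop _
  filter_upwards [eventually_ge_atTop 4, hlog] with n h4 hs4 t ht
  have hn' : (4 : ℝ) ≤ n := by exact_mod_cast h4
  have hn0 : (0 : ℝ) < n := by linarith
  have hlog0 : 0 ≤ Real.log n := Real.log_natCast_nonneg n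
  have hlogs : Real.log n ≤ ((n : ℝ) - 2) / 2 := by
    have h1 := sq_sq (n := n) (by omega)
    have h2 : Real.log n / 2 ≤ sq n - 1 := by
      have h3 := Real.add_one_le_exp (Real.log n / 2)
      unfold sq
      linarith
    nlinarith
  have hx0 : 0 < 1 - 2 / (n : ℝ) := by
    rw [sub_pos, div_lt_one hn0]; linarith
  have h5 := Real.one_sub_inv_le_log_of_pos hx0
  have h6 : 1 - (1 - 2 / (n : ℝ))⁻¹ = -(2 / (n - 2)) := by
    have : (n : ℝ) - 2 ≠ 0 := by linarith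
    field_simp
    ring
  rw [h6] at h5
  have hn2 : 0 < (n : ℝ) - 2 := by linarith
  have h7 : (1 - 2 / (n : ℝ)) ^ t = Real.exp (t * Real.log (1 - 2 / (n : ℝ))) := by
    rw [Real.exp_nat_mul, Real.exp_log hx0]
  have h8 : -(Real.log n - c + 1) ≤ t * Real.log (1 - 2 / (n : ℝ)) := by
    have h9 : (t : ℝ) * (-(2 / ((n : ℝ) - 2))) ≤ t * Real.log (1 - 2 / (n : ℝ)) :=
      mul_le_mul_of_nonneg_left h5 (by positivity)
    refine le_trans ?_ h9
    have h10 : (t : ℝ) * (2 / ((n : ℝ) - 2)) ≤ Real.log n - c + 1 := by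
      rw [mul_div_assoc', div_le_iff₀ hn2]
      have h11 : (Real.log n - c + 1) * ((n : ℝ) - 2) =
          n * (Real.log n - c) - 2 * (Real.log n - c) + (n - 2) := by ring
      rw [h11]
      have h12 : 2 * (Real.log n - c) ≤ n - 2 := by linarith
      linarith
    linarith
  have h9 : Real.exp (-(Real.log n - c + 1)) ≤ (1 - 2 / (n : ℝ)) ^ t := by
    rw [h7, Real.exp_le_exp]; exact h8
  have h10 : Real.exp (-(Real.log n - c + 1)) = (2 * (3 * (|M| + 1) + 3)) / n := by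
    have h11 : -(Real.log n - c + 1) = Real.log (2 * (3 * (|M| + 1) + 3)) - Real.log n := by
      rw [hc]; ring
    rw [h11, Real.exp_sub, Real.exp_log (by linarith), Real.exp_log hn0]
  rw [h10] at h9
  refine mom_two_ge2 (by omega) t (by linarith) ?_
  have h13 : (n : ℝ) / 2 ≤ n - 1 := by linarith
  calc 3 * (|M| + 1) + 3 = (n : ℝ) / 2 * ((2 * (3 * (|M| + 1) + 3)) / n) := by
        field_simp
    _ ≤ (n - 1) * (1 - 2 / (n : ℝ)) ^ t := by
        apply mul_le_mul h13 h9 (by positivity) (by linarith)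

end

end Pool.Agent.Y995.RT
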