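import Pool.Agent.Results.MP_c0051b_pr.TranspositionLpCutoff

/-!
The operator inequality with two majorants.
-/

set_option autoImplicit false
set_option linter.all false

open Finset Equiv Filter Topology
open scoped InnerProductSpace Nat

namespace Pool.Agent.Y995.RT

open Pool.Agent.Results.MP_c0051b_pr.TranspositionLpCutoff.RT

noncomputable section

variable {n : ℕ} {V : Type} [NormedAddCommGroup V] [InnerProductSpace ℝ V]
  [FiniteDimensional ℝ V] {ρ : Perm (Fin n) →* (V →ₗ[ℝ] V)}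

theorem main2 (hρ : Unit ρ) (hn : 0 < n) {p β γ p2 g : ℝ} (hp0 : 0 ≤ p) (hp1 : p ≤ 1)
    (hp20 : 0 ≤ p2) (hp21 : p2 ≤ 1) (hg : 0 ≤ g)
    (hβ : 1 ≤ β * (1 - p) ^ n) (hβ0 : 0 ≤ β) {t t0 : ℕ} (hte : Even t) (ht0e : Even t0)
    (htt : t0 ≤ t) {L : ℕ} (hL : L + 2 ≤ n)
    (h1 : ∀ l : ℕ, 1 ≤ l → l ≤ L →
      (1 - 2 * (l : ℝ) * (n - l + 1) / (n : ℝ) ^ 2) ^ t ≤ p ^ l ∨
      (1 - 2 * (l : ℝ) * (n - l + 1) / (n : ℝ) ^ 2) ^ t ≤ g * (p2 ^ l * (1 - p2) ^ n))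
    (h1' : ∀ l : ℕ, l ≤ L → 0 ≤ 1 - 2 * (l : ℝ) * (n + 1) / (n : ℝ) ^ 2)
    (h2 : ∀ l : ℕ, l ≤ L →
      (1 - 2 / n - 2 * (l : ℝ) * (n - l + 1) / (n : ℝ) ^ 2) ^ t ≤ p ^ (l + 1) ∨
      (1 - 2 / n - 2 * (l : ℝ) * (n - l + 1) / (n : ℝ) ^ 2) ^ t ≤ g * (p2 ^ l * (1 - p2) ^ n))
    (h2' : ∀ l : ℕ, l ≤ L → 2 / (n : ℝ) ≤ 1 - 2 / n - 2 * (l : ℝ) * (n - l + 1) / (n : ℝ) ^ 2)
    (h3 : 0 ≤ γ) (h3' : (1 - ((L : ℝ) / n) ^ 2) ^ (t - t0) ≤ γ) (v : V) :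
    ⟪((KK ρ) ^ t - eB ρ univ) v, v⟫_ℝ ≤
      ⟪(β • (Gp ρ p - eB ρ univ) + (β * p) • Gp (sgr ρ) p +
        (g • (Gp ρ p2 + Gp (sgr ρ) p2) + γ • (KK ρ) ^ t0)) v, v⟫_ℝ := by
  have hn' : (0 : ℝ) < n := by exact_mod_cast hn
  set A₀ : V →ₗ[ℝ] V := (KK ρ) ^ t - eB ρ univ with hA₀
  set B₀ : V →ₗ[ℝ] V := β • (Gp ρ p - eB ρ univ) + (β * p) • Gp (sgr ρ) p +
    (g • (Gp ρ p2 + Gp (sgr ρ) p2) + γ • (KK ρ) ^ t0)
    with hB₀
  have hK : Sym (KK ρ) := fun v w => hρ.KK_symm v w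
  have he : Sym (eB ρ univ) := fun v w => hρ.eB_symm univ v w
  have hXs : Sym (B₀ - A₀) := by
    apply Sym.sub
    · exact ((((hρ.Gp_symm p).sub he).smul β).add ((hρ.sgr.Gp_symm p).smul (β * p))).add
        ((((hρ.Gp_symm p2).add (hρ.sgr.Gp_symm p2)).smul g).add ((hK.pow t0).smul γ))
    · exact (hK.pow t).sub he
  have hXc : Cen ρ (B₀ - A₀) := by
    apply Cen.sub
    · exact ((((cen_Gp p).sub cen_eB_univ).smul β).add ((cen_Gp_sgr p).smul (β * p))).add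
        ((((cen_Gp p2).add (cen_Gp_sgr p2)).smul g).add ((cen_KK.pow t0).smul γ))
    · exact (cen_KK.pow t).sub cen_eB_univ
  have hform : ∀ u : V, ∀ r : ℝ, KK ρ u = r • u → ⟪(B₀ - A₀) u, u⟫_ℝ =
      β * (⟪Gp ρ p u, u⟫_ℝ - ⟪eB ρ univ u, u⟫_ℝ) + β * p * ⟪Gp (sgr ρ) p u, u⟫_ℝ +
        (g * (⟪Gp ρ p2 u, u⟫_ℝ + ⟪Gp (sgr ρ) p2 u, u⟫_ℝ) +
        γ * (r ^ t0 * ‖u‖ ^ 2)) - (r ^ t * ‖u‖ ^ 2 - ⟪eB ρ univ u, u⟫_ℝ) := by
    intro u r hr
    rw [hA₀, hB₀]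
    simp only [LinearMap.sub_apply, LinearMap.add_apply, LinearMap.smul_apply, inner_sub_left,
      inner_add_left, real_inner_smul_left, pow_eig hr, real_inner_self_eq_norm_sq]
  suffices h : 0 ≤ ⟪(B₀ - A₀) v, v⟫_ℝ by
    rw [LinearMap.sub_apply, inner_sub_left] at h
    linarith
  refine nonneg_of_eig hXs ?_ v
  intro a w hw haw
  let E : Submodule ℝ V := LinearMap.ker ((B₀ - A₀) - a • LinearMap.id)
  have hE : ∀ u, u ∈ E ↔ (B₀ - A₀) u = a • u := by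
    intro u
    rw [LinearMap.mem_ker, LinearMap.sub_apply, LinearMap.smul_apply,
        LinearMap.id_apply, sub_eq_zero]
  have hEK : ∀ u ∈ E, KK ρ u ∈ E := by
    intro u hu
    rw [hE] at hu ⊢
    rw [hXc.comm_KK, hu, map_smul]
  have hne : E ≠ ⊥ := by
    intro h0
    have : w ∈ E := (hE w).mpr haw
    rw [h0, Submodule.mem_bot] at this
    exact hw this
  obtain ⟨r, w', hw'E, hw'0, hrw'⟩ := exists_eig hK E hEK hne
  let F : Submodule ℝ V := E ⊓ LinearMap.ker (KK ρ - r • LinearMap.id)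
  have hF : ∀ u, u ∈ F ↔ (B₀ - A₀) u = a • u ∧ KK ρ u = r • u := by
    intro u
    have h0 : u ∈ LinearMap.ker (KK ρ - r • LinearMap.id) ↔ KK ρ u = r • u := by
      rw [LinearMap.mem_ker, LinearMap.sub_apply, LinearMap.smul_apply,
        LinearMap.id_apply, sub_eq_zero]
    rw [Submodule.mem_inf, hE, h0]
  have hFρ : ∀ g, ∀ u ∈ F, ρ g u ∈ F := by
    intro g u hu
    rw [hF] at hu ⊢
    exact ⟨by rw [hXc, hu.1, map_smul], by rw [KK_comm, hu.2, map_smul]⟩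
  have hFne : F ≠ ⊥ := by
    intro h0
    have : w' ∈ F := (hF w').mpr ⟨(hE w').mp hw'E, hrw'⟩
    rw [h0, Submodule.mem_bot] at this
    exact hw'0 this
  -- it suffices to find a vector with nonnegative form
  have hsuff : ∀ u ∈ F, u ≠ 0 → 0 ≤ ⟪(B₀ - A₀) u, u⟫_ℝ → 0 ≤ a := by
    intro u hu hu0 h
    rw [((hF u).mp hu).1, real_inner_smul_left, real_inner_self_eq_norm_sq] at h
    have : 0 < ‖u‖ ^ 2 := by positivity
    exact nonneg_of_mul_nonneg_left h this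
  have hrt0 : 0 ≤ r ^ t0 := ht0e.pow_nonneg r
  have hG2 : ∀ u : V, 0 ≤ g * (⟪Gp ρ p2 u, u⟫_ℝ + ⟪Gp (sgr ρ) p2 u, u⟫_ℝ) := fun u =>
    mul_nonneg hg (add_nonneg (hρ.Gp_nonneg hp20 hp21 u) (hρ.sgr.Gp_nonneg hp20 hp21 u))
  have hq2 : 0 ≤ 1 - p2 := by linarith
  obtain ⟨A, ⟨u, huF, hu0, hu⟩, hA⟩ := exists_level F hFρ hFne
  have hKu : KK ρ u = r • u := ((hF u).mp huF).2
  have hlev := hρ.level_bound F A huF hu0 hu hA hKu hn
  have hu2 : 0 ≤ ‖u‖ ^ 2 := by positivity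
  rcases Nat.eq_zero_or_pos A.card with hl0 | hl0
  · -- level zero
    apply hsuff u huF hu0
    have hA0 : A = ∅ := Finset.card_eq_zero.mp hl0
    rw [hA0, Finset.compl_empty] at hu
    have hr1 : r = 1 := by
      rw [hl0] at hlev
      norm_num at hlev
      exact le_antisymm hlev.2 hlev.1
    rw [hform u r hKu, Gp_inv p hu, eB_of_inv ρ hu, real_inner_self_eq_norm_sq, hr1, one_pow,
      one_pow]
    have h4 := hρ.sgr.Gp_nonneg hp0 hp1 u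
    have h5 : 0 ≤ β * p * ⟪Gp (sgr ρ) p u, u⟫_ℝ := by positivity
    have h6 := hG2 u
    have h7 : 0 ≤ γ * (1 * ‖u‖ ^ 2) := by positivity
    have h8 : β * (‖u‖ ^ 2 - ‖u‖ ^ 2) = 0 := by ring
    linarith
  have huniv : ∀ u ∈ F, eB ρ univ u = 0 := by
    intro u hu
    have := hA ∅ (by rw [Finset.card_empty]; exact hl0) u hu
    rwa [Finset.compl_empty] at this
  rcases le_or_gt A.card L with hlL | hlL
  · -- low level
    apply hsuff u huF hu0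
    have h4 := hρ.Gp_ge hp0 hp1 A hu
    have h5 := hρ.sgr.Gp_nonneg hp0 hp1 u
    have hr0 : 0 ≤ r := (h1' A.card hlL).trans hlev.1
    have hrt' := pow_le_pow_left₀ hr0 hlev.2 t
    have h9 : 0 ≤ γ * (r ^ t0 * ‖u‖ ^ 2) := by positivity
    have h8 : 0 ≤ β * p * ⟪Gp (sgr ρ) p u, u⟫_ℝ := by positivity
    rcases h1 A.card hl0 hlL with h1A | h1A
    swap
    · have h4' := hρ.Gp_ge hp20 hp21 A hu
      have h5' := hρ.sgr.Gp_nonneg hp20 hp21 u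
      have h4'' := hρ.Gp_nonneg hp0 hp1 u
      have h6' : (1 - p2) ^ n ≤ (1 - p2) ^ (n - A.card) :=
        pow_le_pow_of_le_one hq2 (by linarith) (Nat.sub_le _ _)
      have h7' : r ^ t * ‖u‖ ^ 2 ≤ g * (⟪Gp ρ p2 u, u⟫_ℝ + ⟪Gp (sgr ρ) p2 u, u⟫_ℝ) := by
        calc r ^ t * ‖u‖ ^ 2 ≤ (g * (p2 ^ A.card * (1 - p2) ^ n)) * ‖u‖ ^ 2 :=
              mul_le_mul_of_nonneg_right (hrt'.trans h1A) hu2
          _ = g * (p2 ^ A.card * (1 - p2) ^ n * ‖u‖ ^ 2) := by ring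
          _ ≤ g * (p2 ^ A.card * (1 - p2) ^ (n - A.card) * ‖u‖ ^ 2) := by gcongr
          _ ≤ g * (⟪Gp ρ p2 u, u⟫_ℝ + ⟪Gp (sgr ρ) p2 u, u⟫_ℝ) :=
              mul_le_mul_of_nonneg_left (by linarith) hg
      have h8' : 0 ≤ β * (⟪Gp ρ p u, u⟫_ℝ - 0) := by
        rw [sub_zero]; exact mul_nonneg hβ0 h4''
      rw [hform u r hKu, huniv u huF, inner_zero_left]
      linarith
    have hrt : r ^ t ≤ p ^ A.card := hrt'.trans h1A
    have hq : 0 ≤ 1 - p := by linarith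
    have h6 : 1 ≤ β * (1 - p) ^ (n - A.card) := by
      refine hβ.trans (mul_le_mul_of_nonneg_left ?_ hβ0)
      exact pow_le_pow_of_le_one hq (by linarith) (Nat.sub_le _ _)
    have h7 : p ^ A.card * ‖u‖ ^ 2 ≤ β * ⟪Gp ρ p u, u⟫_ℝ := by
      calc p ^ A.card * ‖u‖ ^ 2 ≤ (p ^ A.card * ‖u‖ ^ 2) * (β * (1 - p) ^ (n - A.card)) :=
            le_mul_of_one_le_right (by positivity) h6
        _ = β * (p ^ A.card * (1 - p) ^ (n - A.card) * ‖u‖ ^ 2) := by ring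
        _ ≤ _ := mul_le_mul_of_nonneg_left h4 hβ0
    rw [hform u r hKu, huniv u huF, inner_zero_left]
    have h10 : r ^ t * ‖u‖ ^ 2 ≤ p ^ A.card * ‖u‖ ^ 2 := mul_le_mul_of_nonneg_right hrt hu2
    have h11 := hG2 u
    linarith
  -- high level; look at the sign-twisted level
  obtain ⟨A', ⟨u', hu'F, hu'0, hu'⟩, hA'⟩ := exists_level (ρ := sgr ρ) F (sgr_mem hFρ) hFne
  have hKu' : KK ρ u' = r • u' := ((hF u').mp hu'F).2
  have hKs : ∀ z ∈ F, KK (sgr ρ) z = (2 / (n : ℝ) - r) • z := by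
    intro z hz
    rw [KK_sgr hn, ((hF z).mp hz).2, sub_smul]
  have hlev' := hρ.sgr.level_bound F A' hu'F hu'0 hu' hA' (hKs u' hu'F) hn
  have hu2' : 0 ≤ ‖u'‖ ^ 2 := by positivity
  rcases le_or_gt A'.card L with hlL' | hlL'
  · apply hsuff u' hu'F hu'0
    have h4 := hρ.sgr.Gp_ge hp0 hp1 A' hu'
    have h5 := hρ.Gp_nonneg hp0 hp1 u'
    set y : ℝ := 1 - 2 / n - 2 * (A'.card : ℝ) * (n - A'.card + 1) / (n : ℝ) ^ 2 with hy
    have hry : |r| ≤ y := by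
      rw [abs_le]
      constructor
      · linarith [hlev'.2]
      · have := h1' A'.card hlL'
        have h6 := h2' A'.card hlL'
        linarith [hlev'.1]
    have hrt' : r ^ t ≤ y ^ t := by
      calc r ^ t = |r| ^ t := (hte.pow_abs r).symm
        _ ≤ y ^ t := pow_le_pow_left₀ (abs_nonneg r) hry t
    have h9 : 0 ≤ γ * (r ^ t0 * ‖u'‖ ^ 2) := by positivity
    have h8 : 0 ≤ β * ⟪Gp ρ p u', u'⟫_ℝ := by positivity
    rcases h2 A'.card hlL' with h2A | h2A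
    swap
    · have h4' := hρ.sgr.Gp_ge hp20 hp21 A' hu'
      have h5' := hρ.Gp_nonneg hp20 hp21 u'
      have h4'' := hρ.sgr.Gp_nonneg hp0 hp1 u'
      have h6' : (1 - p2) ^ n ≤ (1 - p2) ^ (n - A'.card) :=
        pow_le_pow_of_le_one hq2 (by linarith) (Nat.sub_le _ _)
      have h7' : r ^ t * ‖u'‖ ^ 2 ≤ g * (⟪Gp ρ p2 u', u'⟫_ℝ + ⟪Gp (sgr ρ) p2 u', u'⟫_ℝ) := by
        calc r ^ t * ‖u'‖ ^ 2 ≤ (g * (p2 ^ A'.card * (1 - p2) ^ n)) * ‖u'‖ ^ 2 :=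
              mul_le_mul_of_nonneg_right (hrt'.trans h2A) hu2'
          _ = g * (p2 ^ A'.card * (1 - p2) ^ n * ‖u'‖ ^ 2) := by ring
          _ ≤ g * (p2 ^ A'.card * (1 - p2) ^ (n - A'.card) * ‖u'‖ ^ 2) := by gcongr
          _ ≤ g * (⟪Gp ρ p2 u', u'⟫_ℝ + ⟪Gp (sgr ρ) p2 u', u'⟫_ℝ) :=
              mul_le_mul_of_nonneg_left (by linarith) hg
      have h8' : 0 ≤ β * p * ⟪Gp (sgr ρ) p u', u'⟫_ℝ := by positivity
      have h8'' : 0 ≤ β * (⟪Gp ρ p u', u'⟫_ℝ - 0) := by rw [sub_zero]; exact h8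
      rw [hform u' r hKu', huniv u' hu'F, inner_zero_left]
      linarith
    have hrt : r ^ t ≤ p ^ (A'.card + 1) := hrt'.trans h2A
    have hq : 0 ≤ 1 - p := by linarith
    have h6 : 1 ≤ β * (1 - p) ^ (n - A'.card) := by
      refine hβ.trans (mul_le_mul_of_nonneg_left ?_ hβ0)
      exact pow_le_pow_of_le_one hq (by linarith) (Nat.sub_le _ _)
    have h7 : p ^ (A'.card + 1) * ‖u'‖ ^ 2 ≤ β * p * ⟪Gp (sgr ρ) p u', u'⟫_ℝ := by
      calc p ^ (A'.card + 1) * ‖u'‖ ^ 2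
          ≤ (p ^ (A'.card + 1) * ‖u'‖ ^ 2) * (β * (1 - p) ^ (n - A'.card)) :=
            le_mul_of_one_le_right (by positivity) h6
        _ = β * p * (p ^ A'.card * (1 - p) ^ (n - A'.card) * ‖u'‖ ^ 2) := by ring
        _ ≤ _ := mul_le_mul_of_nonneg_left h4 (by positivity)
    rw [hform u' r hKu', huniv u' hu'F, inner_zero_left]
    have h10 : r ^ t * ‖u'‖ ^ 2 ≤ p ^ (A'.card + 1) * ‖u'‖ ^ 2 :=
      mul_le_mul_of_nonneg_right hrt hu2'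
    have h11 := hG2 u'
    linarith
  · apply hsuff u huF hu0
    have hm : 1 ≤ n - L - 1 := by omega
    have hmn : n - L - 1 ≤ n := by omega
    have hcast : ((n - L - 1 : ℕ) : ℝ) = (n : ℝ) - L - 1 := by
      rw [Nat.cast_sub (by omega), Nat.cast_sub (by omega)]; norm_num
    have h4 := hρ.high_bound F hFρ hm hmn (by
      intro B hB z hz
      have h5 := hA Bᶜ (by rw [Finset.card_compl, Fintype.card_fin]; omega) z hz
      rwa [compl_compl] at h5) huF hu0 hKu hn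
    have h5 := hρ.sgr.high_bound F (sgr_mem hFρ) hm hmn (by
      intro B hB z hz
      have h5 := hA' Bᶜ (by rw [Finset.card_compl, Fintype.card_fin]; omega) z hz
      rwa [compl_compl] at h5) huF hu0 (hKs u huF) hn
    rw [hcast] at h4 h5
    have h6 : ((L : ℝ) / n) ^ 2 ≤
        ((n : ℝ) - ((n : ℝ) - L - 1)) * (n - ((n : ℝ) - L - 1) + 1) / (n : ℝ) ^ 2 := by
      rw [div_pow]
      gcongr
      nlinarith [(Nat.cast_nonneg L : (0 : ℝ) ≤ L)]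
    have hrz : |r| ≤ 1 - ((L : ℝ) / n) ^ 2 := by
      rw [abs_le]
      have h7 : 0 ≤ 2 / (n : ℝ) := by positivity
      constructor <;> linarith
    have hrt : r ^ t ≤ γ * r ^ t0 := by
      have h7 : r ^ t = r ^ t0 * r ^ (t - t0) := by rw [← pow_add, Nat.add_sub_cancel' htt]
      have h8 : r ^ (t - t0) ≤ γ := by
        calc r ^ (t - t0) ≤ |r ^ (t - t0)| := le_abs_self _
          _ = |r| ^ (t - t0) := abs_pow _ _
          _ ≤ (1 - ((L : ℝ) / n) ^ 2) ^ (t - t0) := pow_le_pow_left₀ (abs_nonneg r) hrz _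
          _ ≤ γ := h3'
      rw [h7, mul_comm γ]
      exact mul_le_mul_of_nonneg_left h8 hrt0
    rw [hform u r hKu, huniv u huF, inner_zero_left]
    have h7 := hρ.Gp_nonneg hp0 hp1 u
    have h8 := hρ.sgr.Gp_nonneg hp0 hp1 u
    have h9 : 0 ≤ β * ⟪Gp ρ p u, u⟫_ℝ := by positivity
    have h10 : 0 ≤ β * p * ⟪Gp (sgr ρ) p u, u⟫_ℝ := by positivity
    have h11 : r ^ t * ‖u‖ ^ 2 ≤ γ * r ^ t0 * ‖u‖ ^ 2 := mul_le_mul_of_nonneg_right hrt hu2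
    have h12 := hG2 u
    have h13 : γ * (r ^ t0 * ‖u‖ ^ 2) = γ * r ^ t0 * ‖u‖ ^ 2 := by ring
    have h14 : β * (⟪Gp ρ p u, u⟫_ℝ - 0) = β * ⟪Gp ρ p u, u⟫_ℝ := by ring
    linarith

end

end Pool.Agent.Y995.RT
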